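import Pool.Agent.Y17.N.Defs
import Pool.Agent.Y563.Z.Sola
import Pool.Agent.Z125.Rep

/-! Z17N-SQ2: the flips of the representations of `3 q m` by `b² + 14 y²` at a split prime. -/

set_option autoImplicit false

namespace Pool.Agent.Y349.ZN

open Finset
open Pool.Agent.Z700 (X2 pr)
open Pool.Agent.Z125 (dvd_pr jac_congr jac_neg_one x2_iff)
open Pool.Agent.Y17.N (Sp)

section copied

open Pool.Agent.Y563.Z (thue to_X2 s1 s2 s4)

theorem sq_neg14 {p : ℕ} (hp : Sp p) : ∃ r : ℤ, (p : ℤ) ∣ r ^ 2 + 14 := by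
  obtain ⟨hp1, h24, h7⟩ := hp
  have : Fact p.Prime := ⟨hp1⟩
  have : Fact (Nat.Prime 7) := ⟨by norm_num⟩
  have e1 : IsSquare (-1 : ZMod p) := ZMod.exists_sq_eq_neg_one_iff.2 (by omega)
  have e2 : IsSquare (2 : ZMod p) := (ZMod.exists_sq_eq_two_iff (by rintro rfl; omega)).2
    (Or.inl (by omega))
  have e3 : IsSquare ((7 : ℕ) : ZMod p) := by
    rw [ZMod.exists_sq_eq_prime_iff_of_mod_four_eq_one (by omega) (by norm_num)]
    have h8 : ((p : ℕ) : ZMod 7) = ((p % 7 : ℕ) : ZMod 7) := by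
      rw [ZMod.natCast_mod]
    rw [h8]
    rcases h7 with h | h | h <;> rw [h]
    · exact s1
    · exact s2
    · exact s4
  have e4 : IsSquare (-14 : ZMod p) := by
    have := (e1.mul e2).mul e3
    have h : (-1 : ZMod p) * 2 * ((7 : ℕ) : ZMod p) = -14 := by push_cast; norm_num
    rwa [h] at this
  obtain ⟨r, hr⟩ := e4
  refine ⟨(r.val : ℤ), ?_⟩
  rw [← ZMod.intCast_zmod_eq_zero_iff_dvd]
  push_cast
  rw [ZMod.natCast_zmod_val]
  linear_combination -hr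

/-- the dichotomy, existence -/
theorem dich {p : ℕ} (hp : Sp p) : (∃ x y : ℤ, (p : ℤ) = x ^ 2 + 14 * y ^ 2) ∨ X2 p := by
  obtain ⟨r, hr⟩ := sq_neg14 hp
  obtain ⟨hp1, h24, h7⟩ := hp
  obtain ⟨x, y, h0, hx, hy, hd⟩ := thue hp1 r
  have h1 : (p : ℤ) ∣ x ^ 2 + 14 * y ^ 2 := by
    have : x ^ 2 + 14 * y ^ 2 = (x - r * y) * (x + r * y) + (r ^ 2 + 14) * y ^ 2 := by ring
    rw [this]
    exact dvd_add (Dvd.dvd.mul_right hd _) (Dvd.dvd.mul_right hr _)
  obtain ⟨k, hk⟩ := h1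
  have hp0 : (0 : ℤ) < p := by exact_mod_cast hp1.pos
  have hk15 : k < 15 := by
    by_contra h
    push Not at h
    nlinarith
  have hk0 : 0 < k := by
    by_contra h
    push Not at h
    have : x ^ 2 + 14 * y ^ 2 ≤ 0 := by rw [hk]; nlinarith
    have hx0 : x = 0 := by nlinarith [sq_nonneg x, sq_nonneg y]
    have hy0 : y = 0 := by nlinarith [sq_nonneg x, sq_nonneg y]
    rcases h0 with h | h
    · exact h hx0
    · exact h hy0
  -- congruences
  have hP24 : (p : ℤ) % 8 = 1 := by omega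
  have hP7 : (p : ℤ) % 7 = 1 ∨ (p : ℤ) % 7 = 2 ∨ (p : ℤ) % 7 = 4 := by omega
  have hm8 : (x ^ 2 + 14 * y ^ 2) % 8 = k % 8 := by
    rw [hk, Int.mul_emod, hP24]
    omega
  have hm7 : (x ^ 2 + 14 * y ^ 2) % 7 = (p : ℤ) % 7 * (k % 7) % 7 := by
    rw [hk, Int.mul_emod]
  have c8 : k % 8 = 0 ∨ k % 8 = 1 ∨ k % 8 = 2 ∨ k % 8 = 4 ∨ k % 8 = 6 ∨ k % 8 = 7 := by
    have hx8 : x % 8 = 0 ∨ x % 8 = 1 ∨ x % 8 = 2 ∨ x % 8 = 3 ∨ x % 8 = 4 ∨ x % 8 = 5 ∨ x % 8 = 6 ∨
        x % 8 = 7 := by omega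
    have hy8 : y % 8 = 0 ∨ y % 8 = 1 ∨ y % 8 = 2 ∨ y % 8 = 3 ∨ y % 8 = 4 ∨ y % 8 = 5 ∨ y % 8 = 6 ∨
        y % 8 = 7 := by omega
    rw [← hm8]
    rcases hx8 with h | h | h | h | h | h | h | h <;>
      rcases hy8 with h' | h' | h' | h' | h' | h' | h' | h' <;>
      simp [Int.add_emod, Int.mul_emod, pow_succ, h, h']
  have c7 : k % 7 = 0 ∨ k % 7 = 1 ∨ k % 7 = 2 ∨ k % 7 = 4 := by
    have hx7 : x % 7 = 0 ∨ x % 7 = 1 ∨ x % 7 = 2 ∨ x % 7 = 3 ∨ x % 7 = 4 ∨ x % 7 = 5 ∨ x % 7 = 6 := by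
      omega
    have hs : (x ^ 2 + 14 * y ^ 2) % 7 = 0 ∨ (x ^ 2 + 14 * y ^ 2) % 7 = 1 ∨
        (x ^ 2 + 14 * y ^ 2) % 7 = 2 ∨ (x ^ 2 + 14 * y ^ 2) % 7 = 4 := by
      rcases hx7 with h | h | h | h | h | h | h <;>
      simp [Int.add_emod, Int.mul_emod, pow_succ, h]
    rw [hm7] at hs
    rcases hP7 with h | h | h <;> rw [h] at hs <;> omega
  have hcases : k = 1 ∨ k = 2 ∨ k = 4 ∨ k = 7 ∨ k = 8 ∨ k = 9 ∨ k = 14 := by omega
  rcases hcases with rfl | rfl | rfl | rfl | rfl | rfl | rfl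
  · exact Or.inl ⟨x, y, by linarith⟩
  · right
    have : (2 : ℤ) ∣ x := by
      have h2 : (2 : ℤ) ∣ x ^ 2 := ⟨p - 7 * y ^ 2, by linarith⟩
      exact Int.prime_two.dvd_of_dvd_pow h2
    obtain ⟨u, rfl⟩ := this
    exact to_X2 (f := u) (g := y) (by linarith)
  · left
    have h2 : (2 : ℤ) ∣ x := by
      have h2 : (2 : ℤ) ∣ x ^ 2 := ⟨2 * p - 7 * y ^ 2, by linarith⟩
      exact Int.prime_two.dvd_of_dvd_pow h2
    obtain ⟨u, rfl⟩ := h2
    have h3 : (2 : ℤ) ∣ y := by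
      have h4 : (2 : ℤ) ∣ 7 * y ^ 2 := ⟨p - u ^ 2, by linarith⟩
      have h5 : (2 : ℤ) ∣ y ^ 2 := by omega
      exact Int.prime_two.dvd_of_dvd_pow h5
    obtain ⟨v, rfl⟩ := h3
    exact ⟨u, v, by linarith⟩
  · right
    have h7' : Prime (7 : ℤ) := by norm_num
    have : (7 : ℤ) ∣ x := by
      have h2 : (7 : ℤ) ∣ x ^ 2 := ⟨p - 2 * y ^ 2, by linarith⟩
      exact h7'.dvd_of_dvd_pow h2
    obtain ⟨u, rfl⟩ := this
    exact to_X2 (f := y) (g := u) (by linarith)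
  · right
    have h2 : (2 : ℤ) ∣ x := by
      have h2 : (2 : ℤ) ∣ x ^ 2 := ⟨4 * p - 7 * y ^ 2, by linarith⟩
      exact Int.prime_two.dvd_of_dvd_pow h2
    obtain ⟨u, rfl⟩ := h2
    have h3 : (2 : ℤ) ∣ y := by
      have h4 : (2 : ℤ) ∣ 7 * y ^ 2 := ⟨2 * p - u ^ 2, by linarith⟩
      have h5 : (2 : ℤ) ∣ y ^ 2 := by omega
      exact Int.prime_two.dvd_of_dvd_pow h5
    obtain ⟨v, rfl⟩ := h3
    have h6 : (2 : ℤ) ∣ u := by
      have h2 : (2 : ℤ) ∣ u ^ 2 := ⟨p - 7 * v ^ 2, by linarith⟩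
      exact Int.prime_two.dvd_of_dvd_pow h2
    obtain ⟨w, rfl⟩ := h6
    exact to_X2 (f := w) (g := v) (by linarith)
  · -- k = 9
    have h3p : Prime (3 : ℤ) := by norm_num
    by_cases h3 : (3 : ℤ) ∣ y
    · left
      obtain ⟨v, rfl⟩ := h3
      have : (3 : ℤ) ∣ x := by
        have h2 : (3 : ℤ) ∣ x ^ 2 := ⟨3 * p - 42 * v ^ 2, by linarith⟩
        exact h3p.dvd_of_dvd_pow h2
      obtain ⟨u, rfl⟩ := this
      exact ⟨u, v, by linarith⟩
    · right
      -- `x ≡ ± 2 y mod 9`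
      have h9 : (9 : ℤ) ∣ (x - 2 * y) * (x + 2 * y) := ⟨p - 2 * y ^ 2, by linarith⟩
      have hor : (9 : ℤ) ∣ x - 2 * y ∨ (9 : ℤ) ∣ x + 2 * y := by
        by_cases h31 : (3 : ℤ) ∣ x - 2 * y
        · have h32 : ¬ (3 : ℤ) ∣ x + 2 * y := by
            intro h
            omega
          left
          have hc : IsCoprime (9 : ℤ) (x + 2 * y) := by
            have : IsCoprime (3 : ℤ) (x + 2 * y) := (Prime.coprime_iff_not_dvd h3p).2 h32
            have h2 := this.pow_left (m := 2)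
            norm_num at h2
            exact h2
          exact hc.dvd_of_dvd_mul_right h9
        · right
          have hc : IsCoprime (9 : ℤ) (x - 2 * y) := by
            have : IsCoprime (3 : ℤ) (x - 2 * y) := (Prime.coprime_iff_not_dvd h3p).2 h31
            have h2 := this.pow_left (m := 2)
            norm_num at h2
            exact h2
          exact hc.dvd_of_dvd_mul_left h9
      have key : ∀ z : ℤ, z ^ 2 = y ^ 2 → (9 : ℤ) ∣ x - 2 * z → X2 p := by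
        intro z hz hd
        obtain ⟨c, hc⟩ := hd
        have hx : x = 2 * z + 9 * c := by linarith
        refine to_X2 (f := z + c) (g := c) ?_
        have h10 : (9 : ℤ) * p = 9 * (2 * (z + c) ^ 2 + 7 * c ^ 2) := by
          rw [hx, ← hz] at hk
          linarith
        linarith
      rcases hor with h | h
      · exact key y rfl h
      · exact key (-y) (by ring) (by rwa [mul_neg, sub_neg_eq_add])
  · left
    have h7' : Prime (7 : ℤ) := by norm_num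
    have h2 : (2 : ℤ) ∣ x := by
      have h2 : (2 : ℤ) ∣ x ^ 2 := ⟨7 * p - 7 * y ^ 2, by linarith⟩
      exact Int.prime_two.dvd_of_dvd_pow h2
    have h3 : (7 : ℤ) ∣ x := by
      have h2 : (7 : ℤ) ∣ x ^ 2 := ⟨2 * p - 2 * y ^ 2, by linarith⟩
      exact h7'.dvd_of_dvd_pow h2
    obtain ⟨u, hu⟩ : (14 : ℤ) ∣ x := by omega
    exact ⟨y, u, by rw [hu] at hk; linarith⟩

theorem pr_mod8_sp (P : Finset ℕ) (hP : ∀ p ∈ P, Sp p) : pr P % 8 = 1 := by
  induction P using Finset.induction_on with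
  | empty => simp [pr]
  | insert p Q hpQ ih =>
    have h1 := ih fun q hq => hP q (Finset.mem_insert_of_mem hq)
    have h2 := (hP p (Finset.mem_insert_self _ _)).2.1
    have h3 : pr (insert p Q) = p * pr Q := by
      unfold pr
      rw [Finset.prod_insert hpQ]
    rw [h3, Nat.mul_mod, h1, h2]


theorem sp_rep {p : ℕ} (hF : Sp p) : (∃ f g : ℤ, (p : ℤ) = g ^ 2 + 14 * f ^ 2) ∨
    ∃ f g : ℤ, (p : ℤ) = 2 * f ^ 2 + 7 * g ^ 2 := by
  rcases dich hF with ⟨x, y, h⟩ | h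
  · exact Or.inl ⟨y, x, h⟩
  · exact Or.inr (x2_iff.1 h)

end copied

theorem jac_two {r : ℕ} (h : r % 8 = 1) : jacobiSym 2 r = 1 := by
  have hodd : Odd r := Nat.odd_iff.2 (by omega)
  rw [jacobiSym.at_two hodd, ZMod.χ₈_nat_eq_if_mod_eight]
  simp [h]
  omega

/-- coprimality gives a nonzero symbol -/
theorem jac_cop {x : ℤ} {n : ℕ} (h : IsCoprime x (n : ℤ)) : jacobiSym x n * jacobiSym x n = 1 := by
  rcases jacobiSym.eq_one_or_neg_one (Int.isCoprime_iff_gcd_eq_one.1 h) with h | h <;> rw [h] <;>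
    norm_num

/-- the product formula -/
theorem prod_formula {N : ℕ} {b y : ℤ} (hN : N % 8 = 1) (h : (N : ℤ) = b ^ 2 + 14 * y ^ 2)
    (hc : IsCoprime b y) (hy : y ≠ 0) : jacobiSym y N = 1 := by
  have hm1 : N % 4 = 1 := by omega
  have hneg : jacobiSym (-1) N = 1 := jac_neg_one hm1
  have habs : jacobiSym y N = jacobiSym (y.natAbs : ℤ) N := by
    rcases Int.natAbs_eq y with h | h
    · rw [← h]
    · conv_lhs => rw [h]
      rw [← neg_one_mul, jacobiSym.mul_left, hneg, one_mul]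
  obtain ⟨i, o, hodd, ho⟩ := Nat.exists_eq_two_pow_mul_odd (Int.natAbs_ne_zero.mpr hy)
  rw [habs, ho]
  push_cast
  rw [jacobiSym.mul_left, jacobiSym.pow_left, jac_two hN, one_pow, one_mul]
  rw [← jacobiSym.quadratic_reciprocity_one_mod_four hm1 hodd]
  have hoy : (o : ℤ) ∣ y := Int.natCast_dvd.mpr ⟨2 ^ i, by rw [ho]; ring⟩
  have hbo : IsCoprime b (o : ℤ) := hc.of_isCoprime_of_dvd_right hoy
  have e1 : jacobiSym (N : ℤ) o = jacobiSym (b ^ 2) o := by
    apply jac_congr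
    obtain ⟨t, ht⟩ := hoy
    refine ⟨14 * t * y, ?_⟩
    rw [h]
    linear_combination 14 * y * ht
  rw [e1]
  exact jacobiSym.sq_one' (Int.isCoprime_iff_gcd_eq_one.mp hbo)

/-- the character of the flip -/
theorem char_eq {n' : ℕ} {p y y' s ε w k N : ℤ} (hdiv : (n' : ℤ) ∣ N)
    (hid : s * (p * y' * y) = w ^ 2 - N * k) (hε : ε = 1 ∨ ε = -1)
    (hεs : jacobiSym (ε * s) n' = 1) (h1 : jacobiSym p n' * jacobiSym p n' = 1)
    (h2 : jacobiSym y n' * jacobiSym y n' = 1)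
    (h3 : jacobiSym (ε * y') n' * jacobiSym (ε * y') n' = 1) :
    jacobiSym (ε * y') n' = jacobiSym p n' * jacobiSym y n' := by
  have hεε : ε * ε = 1 := by rcases hε with rfl | rfl <;> norm_num
  have h4 : jacobiSym ((ε * s) * (p * (ε * y') * y)) n' = jacobiSym (w * w) n' := by
    apply jac_congr
    have : (ε * s) * (p * (ε * y') * y) - w * w = N * (-k) := by
      have : (ε * s) * (p * (ε * y') * y) = (ε * ε) * (s * (p * y' * y)) := by ring
      rw [this, hεε, one_mul, hid]; ring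
    rw [this]
    exact Dvd.dvd.mul_right hdiv _
  rw [jacobiSym.mul_left (ε * s), jacobiSym.mul_left (p * (ε * y')), jacobiSym.mul_left p,
    jacobiSym.mul_left w, hεs, one_mul] at h4
  have h5 : jacobiSym w n' * jacobiSym w n' = 1 := by
    rcases jacobiSym.trichotomy w n' with h | h | h
    · exfalso
      rw [h, mul_zero] at h4
      have : (jacobiSym p n' * jacobiSym (ε * y') n' * jacobiSym y n') ^ 2 = 1 := by
        calc _ = (jacobiSym p n' * jacobiSym p n') * (jacobiSym (ε * y') n' *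
              jacobiSym (ε * y') n') * (jacobiSym y n' * jacobiSym y n') := by ring
          _ = 1 := by rw [h1, h2, h3]; norm_num
      rw [h4] at this
      norm_num at this
    · rw [h]; norm_num
    · rw [h]; norm_num
  rw [h5] at h4
  calc jacobiSym (ε * y') n' = (jacobiSym p n' * jacobiSym p n') * (jacobiSym y n' *
        jacobiSym y n') * jacobiSym (ε * y') n' := by rw [h1, h2]; ring
    _ = (jacobiSym p n' * jacobiSym (ε * y') n' * jacobiSym y n') *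
        (jacobiSym p n' * jacobiSym y n') := by ring
    _ = _ := by rw [h4, one_mul]

/-- the flip -/
theorem flip {p n b y c d : ℤ} (hpp : Prime p) (hpn : ¬ p ∣ n) (h3p : ¬ (3 : ℤ) ∣ p)
    (hq : p * n = b ^ 2 + 14 * y ^ 2) (hcd : c ^ 2 + 14 * d ^ 2 = p ^ 2)
    (hdiv : p ∣ y * c - b * d) (hpd : ¬ p ∣ d) (hby : (3 : ℤ) ∣ y - b) :
    ∃ b' y' : ℤ, p * b' = b * c + 14 * y * d ∧ p * y' = y * c - b * d ∧
      p * n = b' ^ 2 + 14 * y' ^ 2 ∧ (3 : ℤ) ∣ y' - b' ∧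
      p ∣ b * y' + b' * y ∧ ∀ r : ℤ, r ∣ n → r ∣ b * y' - b' * y := by
  have hp0 : p ≠ 0 := hpp.ne_zero
  obtain ⟨y', hy'⟩ := hdiv
  have hid : (b * c + 14 * y * d) ^ 2 + 14 * (y * c - b * d) ^ 2 = (p * n) * p ^ 2 := by
    rw [hq, ← hcd]; ring
  have h1 : p ∣ (b * c + 14 * y * d) ^ 2 := by
    refine ⟨(p * n) * p - 14 * p * y' ^ 2, ?_⟩
    rw [hy'] at hid
    linear_combination hid
  obtain ⟨b', hb'⟩ := hpp.dvd_of_dvd_pow h1
  have hn : p * n = b' ^ 2 + 14 * y' ^ 2 := by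
    rw [hy', hb'] at hid
    have : p ^ 2 * (p * n) = p ^ 2 * (b' ^ 2 + 14 * y' ^ 2) := by
      linear_combination -hid
    exact mul_left_cancel₀ (pow_ne_zero 2 hp0) this
  have hdif : b * y' - b' * y = -(n * d) := by
    have : p * (b * y' - b' * y) = p * (-(n * d)) := by
      have e1 : p * (b * y' - b' * y) = b * (p * y') - y * (p * b') := by ring
      rw [e1, ← hy', ← hb']
      have e2 : p * (-(n * d)) = -(p * n) * d := by ring
      rw [e2, hq]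
      ring
    exact mul_left_cancel₀ hp0 this
  refine ⟨b', y', hb'.symm, hy'.symm, hn, ?_, ?_, ?_⟩
  · have h4 : (3 : ℤ) ∣ p * (y' - b') := by
      have : p * (y' - b') = (y - b) * c - 14 * d * (y - b) - 3 * (5 * b * d) := by
        have e1 : p * (y' - b') = p * y' - p * b' := by ring
        rw [e1, ← hy', ← hb']; ring
      rw [this]
      exact dvd_sub (dvd_sub (Dvd.dvd.mul_right hby _) (Dvd.dvd.mul_left hby _)) (Dvd.intro _ rfl)
    rcases Int.prime_three.dvd_or_dvd h4 with h5 | h5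
    · exact absurd h5 h3p
    · exact h5
  · have h4 : p ∣ (b * y' + b' * y) * (b * y' - b' * y) := by
      have : (b * y' + b' * y) * (b * y' - b' * y) = p * (n * (y' ^ 2 - y ^ 2)) := by
        linear_combination -(y' ^ 2) * hq + y ^ 2 * hn
      rw [this]
      exact Dvd.intro _ rfl
    rcases hpp.dvd_or_dvd h4 with h5 | h5
    · exact h5
    · exfalso
      rw [hdif, dvd_neg] at h5
      rcases hpp.dvd_or_dvd h5 with h6 | h6
      · exact hpn h6
      · exact hpd h6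
  · intro r hr
    rw [hdif, dvd_neg]
    exact Dvd.dvd.mul_right hr _

/-- coordinates of a representation of a squarefree number are coprime -/
theorem cop_of {N : ℕ} {b y : ℤ} (hsq : Squarefree N) (h : (N : ℤ) = b ^ 2 + 14 * y ^ 2) :
    IsCoprime b y := by
  rw [Int.isCoprime_iff_gcd_eq_one]
  by_contra hg
  obtain ⟨r, hr, hrg⟩ := Nat.exists_prime_and_dvd hg
  have hrb : (r : ℤ) ∣ b := (Int.natCast_dvd_natCast.mpr hrg).trans (Int.gcd_dvd_left ..)
  have hry : (r : ℤ) ∣ y := (Int.natCast_dvd_natCast.mpr hrg).trans (Int.gcd_dvd_right ..)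
  have h2 : (r : ℤ) ^ 2 ∣ (N : ℤ) := by
    rw [h]
    exact dvd_add (pow_dvd_pow_of_dvd hrb 2) (Dvd.dvd.mul_left (pow_dvd_pow_of_dvd hry 2) _)
  have h3 : r * r ∣ N := by rw [← pow_two]; exact_mod_cast h2
  exact hr.not_isUnit (hsq r h3)

theorem cop_y {N : ℕ} {b y : ℤ} (hc : IsCoprime b y) (h : (N : ℤ) = b ^ 2 + 14 * y ^ 2) :
    IsCoprime y (N : ℤ) := by
  rw [h]
  have h1 : IsCoprime y (b ^ 2) := (hc.symm).pow_right
  have h2 : b ^ 2 + 14 * y ^ 2 = b ^ 2 + y * (14 * y) := by ring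
  rw [h2]
  exact h1.add_mul_left_right _

theorem pr_sqf {P : Finset ℕ} (hP : ∀ p ∈ P, p.Prime) : Squarefree (pr P) := by
  unfold pr
  refine Finset.squarefree_prod_of_pairwise_isCoprime ?_ fun p hp => (hP p hp).prime.squarefree
  intro p hp q hq hpq
  exact Nat.coprime_iff_isRelPrime.mp ((Nat.coprime_primes (hP p hp) (hP q hq)).mpr hpq)

theorem jac_es {n' : ℕ} (h : n' % 8 = 1) {ε s : ℤ} (hεs : (ε = 1 ∧ s = 1) ∨ (ε = -1 ∧ s = 2)) :
    jacobiSym (ε * s) n' = 1 := by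
  rcases hεs with ⟨rfl, rfl⟩ | ⟨rfl, rfl⟩
  · rw [one_mul]; exact jacobiSym.one_left n'
  · rw [jacobiSym.mul_left, jac_two h, jac_neg_one (by omega), one_mul]

/-- the symbols of the flip -/
theorem symbols {p n : ℕ} (hp : p.Prime) (hp8 : p % 8 = 1) (hn8 : n % 8 = 1)
    (hsq : Squarefree (p * n)) {b y b' y' s ε w k : ℤ}
    (hq : ((p * n : ℕ) : ℤ) = b ^ 2 + 14 * y ^ 2)
    (hq' : ((p * n : ℕ) : ℤ) = (ε * b') ^ 2 + 14 * (ε * y') ^ 2) (hy : y ≠ 0) (hy' : ε * y' ≠ 0)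
    (hid : s * (p * y' * y) = w ^ 2 - ((p * n : ℕ) : ℤ) * k)
    (hεs : (ε = 1 ∧ s = 1) ∨ (ε = -1 ∧ s = 2)) :
    (∀ r : ℕ, r.Prime → r % 8 = 1 → r ≠ p → r ∣ n →
      jacobiSym (ε * y') r = jacobiSym p r * jacobiSym y r) ∧
    jacobiSym (ε * y') p = jacobiSym y p * jacobiSym (n : ℕ) p := by
  have hε : ε = 1 ∨ ε = -1 := by rcases hεs with h | h; exacts [Or.inl h.1, Or.inr h.1]
  have hc := cop_of hsq hq
  have hc' := cop_of hsq hq'
  have hyN := cop_y hc hq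
  have hyN' := cop_y hc' hq'
  have hpn : Nat.Coprime p n := by
    rw [Nat.Prime.coprime_iff_not_dvd hp]
    rintro ⟨t, rfl⟩
    exact hp.not_isUnit (hsq p ⟨t, by ring⟩)
  have hN8 : (p * n) % 8 = 1 := by rw [Nat.mul_mod, hp8, hn8]
  have hsub : ∀ n' : ℕ, n' ∣ p * n → n' % 8 = 1 → Nat.Coprime p n' →
      jacobiSym (ε * y') n' = jacobiSym p n' * jacobiSym y n' := by
    intro n' hd h8 hcop
    have hdz : (n' : ℤ) ∣ ((p * n : ℕ) : ℤ) := by exact_mod_cast hd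
    refine char_eq hdz hid hε (jac_es h8 hεs) ?_ ?_ ?_
    · exact jac_cop (Nat.isCoprime_iff_coprime.2 hcop)
    · exact jac_cop (hyN.of_isCoprime_of_dvd_right hdz)
    · exact jac_cop (hyN'.of_isCoprime_of_dvd_right hdz)
  refine ⟨fun r hr h8 hrp hrn => ?_, ?_⟩
  · exact hsub r (Dvd.dvd.mul_left hrn _) h8 ((Nat.coprime_primes hp hr).2 (Ne.symm hrp))
  · have h1 := hsub n (Dvd.intro_left _ rfl) hn8 hpn
    have h2 := prod_formula hN8 hq hc hy
    have h3 := prod_formula hN8 hq' hc' hy'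
    have hn0 : n ≠ 0 := by rintro rfl; omega
    have : NeZero p := ⟨hp.ne_zero⟩
    have : NeZero n := ⟨hn0⟩
    rw [jacobiSym.mul_right] at h2 h3
    have h4 : jacobiSym (p : ℤ) n = jacobiSym (n : ℤ) p :=
      jacobiSym.quadratic_reciprocity_one_mod_four (by omega) (Nat.odd_iff.2 (by omega))
    have h5 : jacobiSym y p * jacobiSym y p = 1 :=
      jac_cop (hyN.of_isCoprime_of_dvd_right (by push_cast; exact Dvd.intro _ rfl))
    have h6 : jacobiSym (ε * y') n * jacobiSym (ε * y') n = 1 :=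
      jac_cop (hyN'.of_isCoprime_of_dvd_right (by push_cast; exact Dvd.intro_left _ rfl))
    have h7 : jacobiSym y n = jacobiSym y p := by
      calc jacobiSym y n = (jacobiSym y p * jacobiSym y p) * jacobiSym y n := by rw [h5, one_mul]
        _ = jacobiSym y p * (jacobiSym y p * jacobiSym y n) := by ring
        _ = _ := by rw [h2, mul_one]
    have h8 : jacobiSym (ε * y') p = jacobiSym (ε * y') n := by
      calc jacobiSym (ε * y') p = jacobiSym (ε * y') p *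
            (jacobiSym (ε * y') n * jacobiSym (ε * y') n) := by rw [h6, mul_one]
        _ = (jacobiSym (ε * y') p * jacobiSym (ε * y') n) * jacobiSym (ε * y') n := by ring
        _ = _ := by rw [h3, one_mul]
    rw [h8, h1, h7, h4]
    ring

open Pool.Agent.Y17.N in
theorem t_SQB : Pool.Agent.Y17.N.S_SQB := by
  intro q P hQ hq3 hP p hp s hs
  obtain ⟨b, y⟩ := s
  obtain ⟨hq, hb4, hby⟩ := hs
  simp only at hq hb4 hby ⊢
  obtain ⟨hqp, hq8, hq7⟩ := hQ
  have hprim : ∀ r ∈ P, r.Prime := fun r hr => (hP r hr).1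
  have hSp : Sp p := hP p hp
  have hpp := Nat.prime_iff_prime_int.1 hSp.1
  have hp0 : (0 : ℤ) < p := by exact_mod_cast hSp.1.pos
  have hp8 : (p : ℤ) % 8 = 1 := by have := hSp.2.1; omega
  have hprE : pr P = p * pr (P.erase p) := (Finset.mul_prod_erase P (fun x => x) hp).symm
  obtain ⟨n, hn⟩ : ∃ n : ℕ, n = 3 * q * pr (P.erase p) := ⟨_, rfl⟩
  have hNn : 3 * q * pr P = p * n := by rw [hn, hprE]; ring
  have hNz : 3 * (q : ℤ) * (pr P : ℤ) = ((p * n : ℕ) : ℤ) := by rw [← hNn]; push_cast; ring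
  rw [hNz] at hq
  have hE8 : pr (P.erase p) % 8 = 1 :=
    pr_mod8_sp _ fun r hr => hP r (Finset.mem_of_mem_erase hr)
  have hn8 : n % 8 = 1 := by
    have h3q : (3 * q) % 8 = 1 := by omega
    rw [hn, Nat.mul_mod, hE8, h3q]
  have h3n : ∀ r ∈ P, r ≠ 3 := by
    intro r hr h
    have := (hP r hr).2.1
    omega
  have hqn : q ∉ P := by
    intro h
    have := (hP q h).2.1
    omega
  have hsqm : Squarefree (pr P) := pr_sqf hprim
  have hc1 : Nat.Coprime 3 q := (Nat.coprime_primes Nat.prime_three hqp).2 (Ne.symm hq3)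
  have hc2 : Nat.Coprime (3 * q) (pr P) := by
    unfold pr
    apply Nat.Coprime.prod_right
    intro r hr
    rw [Nat.coprime_mul_iff_left]
    exact ⟨(Nat.coprime_primes Nat.prime_three (hprim r hr)).2 (Ne.symm (h3n r hr)),
      (Nat.coprime_primes hqp (hprim r hr)).2 (by rintro rfl; exact hqn hr)⟩
  have hsq : Squarefree (p * n) := by
    rw [← hNn, Nat.squarefree_mul hc2]
    refine ⟨?_, hsqm⟩
    rw [Nat.squarefree_mul hc1]
    exact ⟨Nat.prime_three.prime.squarefree, hqp.prime.squarefree⟩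
  have hpn : ¬ (p : ℤ) ∣ (n : ℤ) := by
    intro h
    obtain ⟨t, ht⟩ : p ∣ n := by exact_mod_cast h
    exact hSp.1.not_isUnit (hsq p ⟨t, by rw [ht]; ring⟩)
  have h3p : ¬ (3 : ℤ) ∣ (p : ℤ) := by
    intro h
    have h1 : (3 : ℕ) ∣ p := by exact_mod_cast h
    exact h3n p hp ((Nat.prime_dvd_prime_iff_eq Nat.prime_three hSp.1).1 h1).symm
  have h3N : (3 : ℤ) ∣ ((p * n : ℕ) : ℤ) := by
    rw [← hNz]; exact Dvd.dvd.mul_right (Dvd.intro _ rfl) _
  have hN8 : ((p * n : ℕ) : ℤ) % 8 = 1 := by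
    have : (p * n) % 8 = 1 := by rw [Nat.mul_mod, hSp.2.1, hn8]
    omega
  have hpN : ((p * n : ℕ) : ℤ) = (p : ℤ) * n := by push_cast; ring
  have hcop := cop_of hsq hq
  -- `y` is even
  have hye : (2 : ℤ) ∣ y := by
    by_contra hy
    have h1 : y % 2 = 1 := by omega
    obtain ⟨k, hk⟩ : ∃ k, y = 2 * k + 1 := ⟨y / 2, by omega⟩
    obtain ⟨l, hl⟩ : ∃ l, b = 4 * l + 1 := ⟨b / 4, by omega⟩
    have e : ((p * n : ℕ) : ℤ) = 8 * (2 * l ^ 2 + l + 7 * (k ^ 2 + k) + 1) + 7 := by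
      rw [hq, hk, hl]; ring
    omega
  obtain ⟨y2, hy2⟩ := hye
  have hne : ∀ B Y : ℤ, ((p * n : ℕ) : ℤ) = B ^ 2 + 14 * Y ^ 2 → Y ≠ 0 := by
    rintro B Y h rfl
    have h1 : (3 : ℤ) ∣ B := by
      apply Int.prime_three.dvd_of_dvd_pow (n := 2)
      have : B ^ 2 = ((p * n : ℕ) : ℤ) := by rw [h]; ring
      rw [this]; exact h3N
    have h2 : (3 * 3 : ℕ) ∣ p * n := by
      obtain ⟨t, rfl⟩ := h1
      have : ((3 * 3 : ℕ) : ℤ) ∣ ((p * n : ℕ) : ℤ) := ⟨t ^ 2, by rw [h]; push_cast; ring⟩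
      exact_mod_cast this
    exact absurd (hsq 3 h2) (by rw [Nat.isUnit_iff]; norm_num)
  have hy0 := hne b y hq
  -- the sign of `d`
  have hsign : ∀ c d : ℤ, c ^ 2 + 14 * d ^ 2 = (p : ℤ) ^ 2 →
      (p : ℤ) ∣ y * c - b * d ∨ (p : ℤ) ∣ y * c - b * (-d) := by
    intro c d hcd
    have : (p : ℤ) ∣ (y * c - b * d) * (y * c - b * (-d)) := by
      have e : (y * c - b * d) * (y * c - b * (-d)) = (p : ℤ) * (y ^ 2 * p - d ^ 2 * n) := by
        rw [hpN] at hq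
        linear_combination y ^ 2 * hcd + d ^ 2 * hq
      rw [e]
      exact Dvd.intro _ rfl
    exact hpp.dvd_or_dvd this
  have hzz : (p : ℤ) * n = b ^ 2 + 14 * y ^ 2 := by rw [← hpN]; exact hq
  -- the conclusion from the data of a flip
  have finish : ∀ (b' y' s ε w k : ℤ), (p : ℤ) * n = b' ^ 2 + 14 * y' ^ 2 → (3 : ℤ) ∣ y' - b' →
      (p : ℤ) ∣ b * y' + b' * y → (∀ r : ℤ, r ∣ (n : ℤ) → r ∣ b * y' - b' * y) →
      (ε * b') % 4 = 1 → s * (p * y' * y) = w ^ 2 - ((p * n : ℕ) : ℤ) * k →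
      ((ε = 1 ∧ s = 1) ∨ (ε = -1 ∧ s = 2)) →
      ∃ s' ∈ SolQ q P, (p : ℤ) ∣ b * s'.2 + s'.1 * y ∧
        (∀ r ∈ P, r ≠ p → (r : ℤ) ∣ b * s'.2 - s'.1 * y) ∧
        (∀ r ∈ P, r ≠ p → jacobiSym s'.2 r = jacobiSym p r * jacobiSym y r) ∧
        jacobiSym s'.2 p = jacobiSym y p * jacobiSym (3 * q * pr (P.erase p) : ℕ) p := by
    intro b' y' s ε w k e3 e5 e6 e7 e8 hid hεs
    have hε2 : ε ^ 2 = 1 := by rcases hεs with ⟨rfl, _⟩ | ⟨rfl, _⟩ <;> norm_num
    have hq' : ((p * n : ℕ) : ℤ) = (ε * b') ^ 2 + 14 * (ε * y') ^ 2 := by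
      rw [hpN, e3, mul_pow, mul_pow, hε2]; ring
    have hs := symbols hSp.1 hSp.2.1 hn8 hsq hq hq' hy0 (hne _ _ hq') hid hεs
    have hrn : ∀ r ∈ P, r ≠ p → r ∣ n := by
      intro r hr hrp
      rw [hn]
      exact Dvd.dvd.mul_left (Finset.dvd_prod_of_mem _ (Finset.mem_erase.2 ⟨hrp, hr⟩)) _
    refine ⟨(ε * b', ε * y'), ⟨?_, e8, ?_⟩, ?_, ?_, ?_, ?_⟩
    · simp only; rw [hNz]; exact hq'
    · simp only
      have : ε * y' - ε * b' = ε * (y' - b') := by ring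
      rw [this]; exact Dvd.dvd.mul_left e5 _
    · simp only
      have : b * (ε * y') + ε * b' * y = ε * (b * y' + b' * y) := by ring
      rw [this]; exact Dvd.dvd.mul_left e6 _
    · intro r hr hrp
      simp only
      have : b * (ε * y') - ε * b' * y = ε * (b * y' - b' * y) := by ring
      rw [this]
      exact Dvd.dvd.mul_left (e7 r (by exact_mod_cast hrn r hr hrp)) _
    · intro r hr hrp
      exact hs.1 r (hprim r hr) (hP r hr).2.1 hrp (hrn r hr hrp)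
    · simp only
      rw [← hn]; exact hs.2
  rcases sp_rep hSp with ⟨f0, g, hfg0⟩ | ⟨f0, g, hfg0⟩
  · -- first case
    obtain ⟨f, hfg, hdiv⟩ : ∃ f : ℤ, (p : ℤ) = g ^ 2 + 14 * f ^ 2 ∧
        (p : ℤ) ∣ y * (g ^ 2 - 14 * f ^ 2) - b * (2 * f * g) := by
      rcases hsign (g ^ 2 - 14 * f0 ^ 2) (2 * f0 * g) (by rw [hfg0]; ring) with h | h
      · exact ⟨f0, hfg0, h⟩
      · refine ⟨-f0, by rw [hfg0]; ring, ?_⟩
        have : y * (g ^ 2 - 14 * (-f0) ^ 2) - b * (2 * -f0 * g) =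
          y * (g ^ 2 - 14 * f0 ^ 2) - b * -(2 * f0 * g) := by ring
        rw [this]; exact h
    have hcd : (g ^ 2 - 14 * f ^ 2) ^ 2 + 14 * (2 * f * g) ^ 2 = (p : ℤ) ^ 2 := by rw [hfg]; ring
    have hg2 : g % 2 = 1 := by
      by_contra h
      obtain ⟨k, hk⟩ : ∃ k, g = 2 * k := ⟨g / 2, by omega⟩
      rw [hk] at hfg
      ring_nf at hfg
      omega
    obtain ⟨g1, hg1⟩ : ∃ k, g = 2 * k + 1 := ⟨g / 2, by omega⟩
    have hgg : g ^ 2 % 8 = 1 := by
      obtain ⟨t, ht⟩ : Even (g1 * (g1 + 1)) := Int.even_mul_succ_self g1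
      have : g ^ 2 = 8 * t + 1 := by rw [hg1]; linear_combination 4 * ht
      omega
    have hf2 : f % 2 = 0 := by
      by_contra h
      obtain ⟨k, hk⟩ : ∃ k, f = 2 * k + 1 := ⟨f / 2, by omega⟩
      obtain ⟨t, ht⟩ : Even (k * (k + 1)) := Int.even_mul_succ_self k
      have : f ^ 2 = 8 * t + 1 := by rw [hk]; linear_combination 4 * ht
      omega
    obtain ⟨f1, hf1⟩ : ∃ k, f = 2 * k := ⟨f / 2, by omega⟩
    have hc4 : (g ^ 2 - 14 * f ^ 2) % 4 = 1 := by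
      have : f ^ 2 = 4 * f1 ^ 2 := by rw [hf1]; ring
      omega
    have hpd : ¬ (p : ℤ) ∣ 2 * f * g := by
      intro h
      have h1 : (p : ℤ) ∣ g := by
        rcases hpp.dvd_or_dvd h with h | h
        · rcases hpp.dvd_or_dvd h with h | h
          · exfalso
            have : p ∣ 2 := by exact_mod_cast h
            have := Nat.le_of_dvd (by norm_num) this
            have := hSp.1.two_le
            omega
          · apply hpp.dvd_of_dvd_pow (n := 2)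
            have : g ^ 2 = p - 14 * f ^ 2 := by rw [hfg]; ring
            rw [this]
            exact dvd_sub dvd_rfl (Dvd.dvd.mul_left (dvd_pow h two_ne_zero) _)
        · exact h
      have h2 : (p : ℤ) ≤ |g| := Int.le_of_dvd (abs_pos.2 (by rintro rfl; omega)) ((dvd_abs _ _).2 h1)
      have h3 : (2 : ℤ) ≤ p := by exact_mod_cast hSp.1.two_le
      nlinarith [sq_abs g, sq_nonneg f]
    obtain ⟨b', y', e1, e2, e3, e5, e6, e7⟩ := flip hpp hpn h3p hzz hcd hdiv hpd hby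
    have hb'4 : b' % 4 = 1 := by
      have h1 : (p : ℤ) * b' = b * (g ^ 2 - 14 * f ^ 2) + 4 * (7 * y2 * (2 * f * g)) := by
        rw [e1, hy2]; ring
      obtain ⟨l, hl⟩ : ∃ l, b = 4 * l + 1 := ⟨b / 4, by omega⟩
      obtain ⟨m, hm⟩ : ∃ m, (p : ℤ) = 4 * m + 1 := ⟨(p : ℤ) / 4, by omega⟩
      obtain ⟨u, hu⟩ : ∃ u, (g ^ 2 - 14 * f ^ 2) = 4 * u + 1 := ⟨(g ^ 2 - 14 * f ^ 2) / 4, by omega⟩
      rw [hl, hm, hu] at h1
      have : b' = 4 * (4 * l * u + l + u + 7 * y2 * (2 * f * g) - m * b') + 1 := by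
        linear_combination h1
      omega
    refine finish b' y' 1 1 (y * g - b * f) (f ^ 2) e3 e5 e6 e7 (by rw [one_mul]; exact hb'4) ?_
      (Or.inl ⟨rfl, rfl⟩)
    have : (1 : ℤ) * (p * y' * y) = (p * y') * y := by ring
    rw [this, e2, hq]; ring
  · -- second case
    obtain ⟨f, hfg, hdiv⟩ : ∃ f : ℤ, (p : ℤ) = 2 * f ^ 2 + 7 * g ^ 2 ∧
        (p : ℤ) ∣ y * (2 * f ^ 2 - 7 * g ^ 2) - b * (2 * f * g) := by
      rcases hsign (2 * f0 ^ 2 - 7 * g ^ 2) (2 * f0 * g) (by rw [hfg0]; ring) with h | h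
      · exact ⟨f0, hfg0, h⟩
      · refine ⟨-f0, by rw [hfg0]; ring, ?_⟩
        have : y * (2 * (-f0) ^ 2 - 7 * g ^ 2) - b * (2 * -f0 * g) =
          y * (2 * f0 ^ 2 - 7 * g ^ 2) - b * -(2 * f0 * g) := by ring
        rw [this]; exact h
    have hcd : (2 * f ^ 2 - 7 * g ^ 2) ^ 2 + 14 * (2 * f * g) ^ 2 = (p : ℤ) ^ 2 := by rw [hfg]; ring
    have hg2 : g % 2 = 1 := by
      by_contra h
      obtain ⟨k, hk⟩ : ∃ k, g = 2 * k := ⟨g / 2, by omega⟩
      rw [hk] at hfg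
      ring_nf at hfg
      omega
    obtain ⟨g1, hg1⟩ : ∃ k, g = 2 * k + 1 := ⟨g / 2, by omega⟩
    have hgg : g ^ 2 % 8 = 1 := by
      obtain ⟨t, ht⟩ : Even (g1 * (g1 + 1)) := Int.even_mul_succ_self g1
      have : g ^ 2 = 8 * t + 1 := by rw [hg1]; linear_combination 4 * ht
      omega
    have hf2 : f % 2 = 1 := by
      by_contra h
      obtain ⟨k, hk⟩ : ∃ k, f = 2 * k := ⟨f / 2, by omega⟩
      have : f ^ 2 = 4 * k ^ 2 := by rw [hk]; ring
      omega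
    obtain ⟨f1, hf1⟩ : ∃ k, f = 2 * k + 1 := ⟨f / 2, by omega⟩
    have hff : f ^ 2 % 8 = 1 := by
      obtain ⟨t, ht⟩ : Even (f1 * (f1 + 1)) := Int.even_mul_succ_self f1
      have : f ^ 2 = 8 * t + 1 := by rw [hf1]; linear_combination 4 * ht
      omega
    have hc4 : (2 * f ^ 2 - 7 * g ^ 2) % 4 = 3 := by omega
    have hpd : ¬ (p : ℤ) ∣ 2 * f * g := by
      intro h
      have hcase : (p : ℤ) ∣ f ∨ (p : ℤ) ∣ g := by
        rcases hpp.dvd_or_dvd h with h | h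
        · rcases hpp.dvd_or_dvd h with h | h
          · exfalso
            have : p ∣ 2 := by exact_mod_cast h
            have := Nat.le_of_dvd (by norm_num) this
            have := hSp.1.two_le
            omega
          · exact Or.inl h
        · exact Or.inr h
      have h3 : (2 : ℤ) ≤ p := by exact_mod_cast hSp.1.two_le
      rcases hcase with h1 | h1
      · have h2 : (p : ℤ) ≤ |f| := Int.le_of_dvd (abs_pos.2 (by rintro rfl; omega))
          ((dvd_abs _ _).2 h1)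
        nlinarith [sq_abs f, sq_nonneg g]
      · have h2 : (p : ℤ) ≤ |g| := Int.le_of_dvd (abs_pos.2 (by rintro rfl; omega))
          ((dvd_abs _ _).2 h1)
        nlinarith [sq_abs g, sq_nonneg f]
    obtain ⟨b', y', e1, e2, e3, e5, e6, e7⟩ := flip hpp hpn h3p hzz hcd hdiv hpd hby
    have hb'4 : b' % 4 = 3 := by
      have h1 : (p : ℤ) * b' = b * (2 * f ^ 2 - 7 * g ^ 2) + 4 * (7 * y2 * (2 * f * g)) := by
        rw [e1, hy2]; ring
      obtain ⟨l, hl⟩ : ∃ l, b = 4 * l + 1 := ⟨b / 4, by omega⟩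
      obtain ⟨m, hm⟩ : ∃ m, (p : ℤ) = 4 * m + 1 := ⟨(p : ℤ) / 4, by omega⟩
      obtain ⟨u, hu⟩ : ∃ u, (2 * f ^ 2 - 7 * g ^ 2) = 4 * u + 3 :=
        ⟨(2 * f ^ 2 - 7 * g ^ 2) / 4, by omega⟩
      rw [hl, hm, hu] at h1
      have : b' = 4 * (4 * l * u + 3 * l + u + 7 * y2 * (2 * f * g) - m * b') + 3 := by
        linear_combination h1
      omega
    refine finish b' y' 2 (-1) (2 * f * y - b * g) (g ^ 2) e3 e5 e6 e7 (by omega) ?_
      (Or.inr ⟨rfl, rfl⟩)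
    have : (2 : ℤ) * (p * y' * y) = 2 * (p * y') * y := by ring
    rw [this, e2, hq]; ring

end Pool.Agent.Y349.ZN
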